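import Pool.Agent.Q293.DP.Pattern

/-!
# Wilf-equivalence of the gapped versions of 1234, 1243, 2143
-/

set_option autoImplicit false

namespace Pool.Agent.Results.MP_1ac54c_co.GappedEquivalence

open Equiv Pool.Agent.Q293.DP

/-- The permutation `π` of `n` letters contains the distant pattern obtained from the pattern
`q 0, q 1, q 2, q 3` by inserting a square between `q j` and `q (j+1)` (`j = 0, 1, 2`): there are
positions `t 0 < t 1 < t 2 < t 3`, with at least one position strictly between `t j` and
`t (j+1)`, at which the entries of `π` are in the same relative order as `q`. -/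
def ContainsGapped {n : ℕ} (q : Fin 4 → ℕ) (j : Fin 3) (π : Perm (Fin n)) : Prop :=
  ∃ t : Fin 4 → Fin n, StrictMono t ∧ (t j.castSucc : ℕ) + 2 ≤ t j.succ ∧
    ∀ x y, π (t x) < π (t y) ↔ q x < q y

/-- The number `a_n` of permutations of `n` letters which avoid the distant pattern. -/
noncomputable def a (n : ℕ) (q : Fin 4 → ℕ) (j : Fin 3) : ℕ :=
  {π : Perm (Fin n) | ¬ ContainsGapped q j π}.ncard

/-- the gap function of the library file -/
def gp (j : Fin 3) : Fin 3 → ℕ := fun x => if x = j then 1 else 0

lemma bridge {n : ℕ} {q : Fin 4 → ℕ} (hq : Function.Injective q) (j : Fin 3)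
    (π : Perm (Fin n)) : ContainsGapped q j π ↔ Contains (m := 3) q (gp j) π := by
  constructor
  · rintro ⟨t, h1, h2, h3⟩
    refine ⟨t, fun x => ?_, fun x y hxy => (h3 x y).2 hxy⟩
    unfold gp
    have h4 : (t x.castSucc : ℕ) < t x.succ := Fin.lt_def.1 (h1 (Fin.castSucc_lt_succ))
    split_ifs with h
    · subst h
      omega
    · omega
  · rintro ⟨t, h1, h2⟩
    refine ⟨t, ?_, ?_, ?_⟩
    · rw [Fin.strictMono_iff_lt_succ]
      intro x
      have := h1 x
      exact Fin.lt_def.2 (by omega)
    · have := h1 j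
      simp only [gp, if_true] at this
      omega
    · intro x y
      constructor
      · intro h
        by_contra hle
        rcases eq_or_lt_of_le (not_lt.1 hle) with he | hlt
        · rw [hq he] at h
          exact lt_irrefl _ h
        · exact lt_asymm h (h2 y x hlt)
      · exact fun h => h2 x y h

lemma a_eq {q : Fin 4 → ℕ} (hq : Function.Injective q) (n : ℕ) (j : Fin 3) :
    a n q j = av n q (gp j) := by
  unfold a av
  simp only [bridge hq]

/-- exchange of the first two letters -/
lemma swap (n : ℕ) (τ : Fin 2 → ℕ) (j : Fin 3) :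
    av n (dn (k := 1) τ) (gp j) = av n (up (k := 1) τ) (gp j) := by
  fin_cases j
  · have h : gp 0 = gaps 1 0 (fun _ : Fin 1 => 0) := by
      funext x; fin_cases x <;> rfl
    show av n (dn (k := 1) τ) (gp 0) = av n (up (k := 1) τ) (gp 0)
    rw [h]
    exact av_eq n τ _ 1 0 (Or.inr ⟨rfl, rfl⟩)
  · have h : gp 1 = gaps 0 1 (fun _ : Fin 1 => 0) := by
      funext x; fin_cases x <;> rfl
    show av n (dn (k := 1) τ) (gp 1) = av n (up (k := 1) τ) (gp 1)
    rw [h]
    exact av_eq n τ _ 0 1 (Or.inl rfl)
  · have h : gp 2 = gaps 0 0 (fun _ : Fin 1 => 1) := by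
      funext x; fin_cases x <;> rfl
    show av n (dn (k := 1) τ) (gp 2) = av n (up (k := 1) τ) (gp 2)
    rw [h]
    exact av_eq n τ _ 0 0 (Or.inl rfl)

/-- `1234` and `2134` -/
lemma first (n : ℕ) (j : Fin 3) : av n (m := 3) ![2, 1, 3, 4] (gp j) = av n (m := 3) ![1, 2, 3, 4] (gp j) := by
  have h := swap n ![0, 1] j
  have e1 : av n (dn (k := 1) ![0, 1]) (gp j) = av n (m := 3) ![2, 1, 3, 4] (gp j) := by
    apply av_congr
    decide
  have e2 : av n (up (k := 1) ![0, 1]) (gp j) = av n (m := 3) ![1, 2, 3, 4] (gp j) := by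
    apply av_congr
    decide
  rw [← e1, ← e2, h]

/-- `1243` and `2143` -/
lemma second (n : ℕ) (j : Fin 3) : av n (m := 3) ![2, 1, 4, 3] (gp j) = av n (m := 3) ![1, 2, 4, 3] (gp j) := by
  have h := swap n ![1, 0] j
  have e1 : av n (dn (k := 1) ![1, 0]) (gp j) = av n (m := 3) ![2, 1, 4, 3] (gp j) := by
    apply av_congr
    decide
  have e2 : av n (up (k := 1) ![1, 0]) (gp j) = av n (m := 3) ![1, 2, 4, 3] (gp j) := by
    apply av_congr
    decide
  rw [← e1, ← e2, h]

/-- reverse-complement: `1243` with a square after letter `j` and `2134` with a square after letter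
`4 - j` -/
lemma third (n : ℕ) (j : Fin 3) :
    av n (m := 3) ![1, 2, 4, 3] (gp j) = av n (m := 3) ![2, 1, 3, 4] (gp j.rev) := by
  apply av_rc
  · decide
  · intro x
    unfold gp
    have : x = j.rev ↔ x.rev = j := by
      constructor
      · rintro rfl; exact Fin.rev_rev j
      · rintro rfl; exact (Fin.rev_rev x).symm
    simp only [this]

lemma fourth (n : ℕ) (j : Fin 3) :
    av n (m := 3) ![1, 2, 3, 4] (gp j) = av n (m := 3) ![1, 2, 3, 4] (gp j.rev) := by
  apply av_rc
  · decide
  · intro x
    unfold gp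
    have : x = j.rev ↔ x.rev = j := by
      constructor
      · rintro rfl; exact Fin.rev_rev j
      · rintro rfl; exact (Fin.rev_rev x).symm
    simp only [this]

/-- Q1: for every `n` and every place `j` of the square the numbers of permutations of `n` letters
avoiding the gapped versions of `1234`, `1243` and `2143` are equal. -/
theorem result : ∀ (n : ℕ) (j : Fin 3),
    a n ![1, 2, 3, 4] j = a n ![1, 2, 4, 3] j ∧ a n ![1, 2, 4, 3] j = a n ![2, 1, 4, 3] j := by
  intro n j
  rw [a_eq (by decide), a_eq (by decide), a_eq (by decide)]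
  refine ⟨?_, (second n j).symm⟩
  rw [third, fourth, first]

end Pool.Agent.Results.MP_1ac54c_co.GappedEquivalence
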